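import Pool.Agent.KS6_22.TBP.S.Scale

set_option autoImplicit false

/-!
# MP_c8123f_an, Q1 and Q2: the classes `(k, 0, -k)`, all periods

For all masses proportional to `(1, 2, 2)`, every period `T > 0` and every integer `k ≠ 0` there is
a collision-free `T`-periodic solution of the planar three-body problem in the class `(k, 0, -k)`
which is not minimizing in its class.
-/

namespace Pool.Agent.Results.MP_c8123f_an.AllPeriodsAllMultiples

/-- `x i t` is the position at time `t` of body `i` (bodies `0, 1, 2` in the plane `ℂ`), `v i t`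
its velocity; Newton's equations `x_i'' = ∑_{j ≠ i} m_j (x_j - x_i) / |x_j - x_i|^3` hold -/
def IsSolution (m : Fin 3 → ℝ) (x v : Fin 3 → ℝ → ℂ) : Prop :=
  (∀ i t, HasDerivAt (x i) (v i t) t) ∧
    ∀ i t, HasDerivAt (v i)
      (∑ j ∈ Finset.univ.erase i,
        (m j : ℂ) * (x j t - x i t) / ((‖x j t - x i t‖ : ℝ) : ℂ) ^ 3) t

/-- the winding number about `0` of the curve `γ` on `[0, T]` is `k`: a continuous choice of the
argument of `γ` on `[0, T]` increases by `2 π k` -/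
def HasDegree (γ : ℝ → ℂ) (T : ℝ) (k : ℤ) : Prop :=
  ∃ φ : ℝ → ℝ, ContinuousOn φ (Set.Icc 0 T) ∧
    (∀ t ∈ Set.Icc 0 T, γ t = ((‖γ t‖ : ℝ) : ℂ) * Complex.exp ((φ t : ℂ) * Complex.I)) ∧
    φ T - φ 0 = 2 * Real.pi * k

/-- `x` (with velocities `v`) is a `T`-periodic `C^1` loop of collision-free configurations with
centre of mass at the origin and with homology class `(k12, k23, k31) = (k, 0, -k)`
(bodies numbered `0, 1, 2`) -/
structure InClass (m : Fin 3 → ℝ) (T : ℝ) (k : ℤ) (x v : Fin 3 → ℝ → ℂ) : Prop where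
  deriv : ∀ i t, HasDerivAt (x i) (v i t) t
  cont : ∀ i, Continuous (v i)
  centre : ∀ t, ∑ i, (m i : ℂ) * x i t = 0
  periodic : ∀ i t, x i (t + T) = x i t
  collisionFree : ∀ i j, i ≠ j → ∀ t, x i t ≠ x j t
  deg12 : HasDegree (fun t => x 0 t - x 1 t) T k
  deg23 : HasDegree (fun t => x 1 t - x 2 t) T 0
  deg31 : HasDegree (fun t => x 2 t - x 0 t) T (-k)

/-- the action `∫_0^T (∑ m_i |x_i'|^2 / 2 + U(x)) dt`, `U = ∑_{i<j} m_i m_j / |x_i - x_j|` -/
noncomputable def action (m : Fin 3 → ℝ) (T : ℝ) (x v : Fin 3 → ℝ → ℂ) : ℝ :=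
  ∫ t in (0:ℝ)..T, ((m 0 * ‖v 0 t‖ ^ 2 + m 1 * ‖v 1 t‖ ^ 2 + m 2 * ‖v 2 t‖ ^ 2) / 2 +
    (m 0 * m 1 / ‖x 0 t - x 1 t‖ + m 1 * m 2 / ‖x 1 t - x 2 t‖ + m 2 * m 0 / ‖x 2 t - x 0 t‖))

open Pool.Agent.KS6_22.TBP.S

theorem ofK {m : Fin 3 → ℝ} {T : ℝ} {k : ℤ} {x v : Fin 3 → ℝ → ℂ}
    (h : Scale.InClassK m T k x v) : InClass m T k x v :=
  ⟨h.deriv, h.cont, h.centre, h.periodic, h.collisionFree, h.deg12, h.deg23, h.deg31⟩

theorem base : ∃ x v y w : Fin 3 → ℝ → ℂ, Base.IsSolution mc x v ∧ Base.InClass mc 8 x v ∧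
    Base.InClass mc 8 y w ∧ Pool.Agent.KS6_22.TBP.S.action mc 8 y w < 6.04 ∧ 7.08 ≤ Pool.Agent.KS6_22.TBP.S.action mc 8 x v := by
  obtain ⟨x, v, h1, h2, h3⟩ := Base.solution
  refine ⟨x, v, yc, yc', h1, h2, Base.yc_inClass, ?_, ?_⟩
  · refine lt_of_le_of_lt action_yc ?_
    have hp := Real.pi_lt_d4
    have hp0 := Real.pi_pos
    have : om ^ 2 ≤ 6169 / 10000 := by
      unfold om
      nlinarith
    norm_num
    linarith
  · have h4 : (177 / 25 : ℝ) ≤ Pool.Agent.KS6_22.TBP.S.action mc 8 x v := h3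
    norm_num at h4 ⊢
    linarith

theorem masses_eq (c : ℝ) : (fun i => (4 * c) * mc i) = ![c, 2 * c, 2 * c] := by
  funext i
  fin_cases i
  · show 4 * c * (1 / 4) = c
    ring
  · show 4 * c * (1 / 2) = 2 * c
    ring
  · show 4 * c * (1 / 2) = 2 * c
    ring

/-- **Main result.** For all masses `(c, 2c, 2c)`, `c > 0`, every period `T > 0` and every integer
`k ≠ 0` there is a collision-free `T`-periodic solution `x` of the planar three-body problem in the
class `(k, 0, -k)` which is not minimizing: a `C^1` collision-free loop `y` of the same period and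
the same class has a smaller action, in fact `A(y) / A(x) < 6.04 / 7.08`; in particular `x` does not
minimize the action over the closure of the class. The case `k = 1` answers the question. -/
theorem result (c T : ℝ) (hc : 0 < c) (hT : 0 < T) (k : ℤ) (hk : k ≠ 0) :
    ∃ x v y w : Fin 3 → ℝ → ℂ,
      IsSolution ![c, 2 * c, 2 * c] x v ∧ InClass ![c, 2 * c, 2 * c] T k x v ∧
      InClass ![c, 2 * c, 2 * c] T k y w ∧
      0 < action ![c, 2 * c, 2 * c] T x v ∧
      action ![c, 2 * c, 2 * c] T y w < 6.04 / 7.08 * action ![c, 2 * c, 2 * c] T x v := by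
  obtain ⟨x, v, y, w, h1, h2, h3, h4, h5⟩ := base
  -- the parameters of the scaling
  have key : ∀ n : ℕ, ∃ a s : ℝ, 0 < a ∧ 0 < s ∧ s * T = 8 * ((n + 1 : ℕ) : ℝ) ∧
      a ^ 3 * s ^ 2 = 4 * c := by
    intro n
    have hs : 0 < 8 * ((n + 1 : ℕ) : ℝ) / T := by positivity
    refine ⟨(4 * c / (8 * ((n + 1 : ℕ) : ℝ) / T) ^ 2) ^ ((1 : ℝ) / 3),
      8 * ((n + 1 : ℕ) : ℝ) / T, by positivity, hs, by field_simp, ?_⟩
    rw [← Real.rpow_natCast, ← Real.rpow_mul (by positivity)]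
    norm_num
    field_simp
  have pos : ∀ n : ℕ, ∃ x v y w : Fin 3 → ℝ → ℂ,
      Base.IsSolution ![c, 2 * c, 2 * c] x v ∧
      Scale.InClassK ![c, 2 * c, 2 * c] T ((n + 1 : ℕ) : ℤ) x v ∧
      Scale.InClassK ![c, 2 * c, 2 * c] T ((n + 1 : ℕ) : ℤ) y w ∧
      0 < Pool.Agent.KS6_22.TBP.S.action ![c, 2 * c, 2 * c] T x v ∧
      Pool.Agent.KS6_22.TBP.S.action ![c, 2 * c, 2 * c] T y w <
        6.04 / 7.08 * Pool.Agent.KS6_22.TBP.S.action ![c, 2 * c, 2 * c] T x v := by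
    intro n
    obtain ⟨a, s, ha, hs, e1, e2⟩ := key n
    have a1 := Scale.sx_action (x := x) (v := v) ha hs e2 n e1 h2
    have a2 := Scale.sx_action (x := y) (v := w) ha hs e2 n e1 h3
    have s1 := Scale.sx_solution ha e2 h1
    have c1 := Scale.sx_class (c := 4 * c) (x := x) (v := v) ha hs n e1 h2
    have c2 := Scale.sx_class (c := 4 * c) (x := y) (v := w) ha hs n e1 h3
    rw [masses_eq] at a1 a2 s1 c1 c2
    have hq : 0 < 4 * c * a ^ 2 * s * ((n + 1 : ℕ) : ℝ) := by positivity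
    refine ⟨_, _, _, _, s1, c1, c2, ?_, ?_⟩
    · rw [a1]
      refine mul_pos hq ?_
      norm_num at h5
      linarith
    · rw [a1, a2]
      set q := 4 * c * a ^ 2 * s * ((n + 1 : ℕ) : ℝ) with hqd
      have h6 : Pool.Agent.KS6_22.TBP.S.action mc 8 y w < 6.04 / 7.08 * Pool.Agent.KS6_22.TBP.S.action mc 8 x v := by
        norm_num at h4 h5 ⊢
        linarith
      calc q * Pool.Agent.KS6_22.TBP.S.action mc 8 y w < q * (6.04 / 7.08 * Pool.Agent.KS6_22.TBP.S.action mc 8 x v) :=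
            mul_lt_mul_of_pos_left h6 hq
        _ = _ := by ring
  rcases lt_trichotomy k 0 with hk0 | hk0 | hk0
  · obtain ⟨n, hn⟩ : ∃ n : ℕ, k = -((n + 1 : ℕ) : ℤ) := ⟨(-k).toNat - 1, by omega⟩
    obtain ⟨x, v, y, w, g1, g2, g3, g4, g5⟩ := pos n
    subst hn
    refine ⟨Scale.cx x, Scale.cx v, Scale.cx y, Scale.cx w, Scale.cx_solution g1,
      ofK (Scale.cx_class g2), ofK (Scale.cx_class g3), ?_, ?_⟩
    · have := Scale.cx_action ![c, 2 * c, 2 * c] T x v
      rw [← this] at g4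
      exact g4
    · have e1 := Scale.cx_action ![c, 2 * c, 2 * c] T x v
      have e2 := Scale.cx_action ![c, 2 * c, 2 * c] T y w
      rw [← e1, ← e2] at g5
      exact g5
  · exact absurd hk0 hk
  · obtain ⟨n, hn⟩ : ∃ n : ℕ, k = ((n + 1 : ℕ) : ℤ) := ⟨k.toNat - 1, by omega⟩
    obtain ⟨x, v, y, w, g1, g2, g3, g4, g5⟩ := pos n
    subst hn
    exact ⟨x, v, y, w, g1, ofK g2, ofK g3, g4, g5⟩

end Pool.Agent.Results.MP_c8123f_an.AllPeriodsAllMultiples
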